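import Mathlib

/-!
# The complete 3-valent universal real tree

Points are right-locally-constant functions `(-∞, h) → {0, 1}` vanishing near `-∞`.
-/

open Filter Topology

namespace Pool.Agent.Q148.Tree

/-- A point of the tree: a function `f` on `(-∞, ht)`, extended by `false`. -/
@[ext] structure Pt where
  ht : ℝ
  f : ℝ → Bool
  bd : ∃ M, ∀ t, t < M → f t = false
  top : ∀ t, ht ≤ t → f t = false
  rc : ∀ t, ∃ ε > 0, ∀ s, t ≤ s → s < t + ε → f s = f t

/-- The agreement set. -/
def agr (x y : Pt) : Set ℝ := {t | t ≤ x.ht ∧ t ≤ y.ht ∧ ∀ s, s < t → x.f s = y.f s}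

/-- The height of the meet. -/
noncomputable def m (x y : Pt) : ℝ := sSup (agr x y)

theorem agr_nonempty (x y : Pt) : (agr x y).Nonempty := by
  obtain ⟨M, hM⟩ := x.bd
  obtain ⟨N, hN⟩ := y.bd
  refine ⟨min (min M N) (min x.ht y.ht), (min_le_right _ _).trans (min_le_left _ _),
    (min_le_right _ _).trans (min_le_right _ _), ?_⟩
  intro s hs
  rw [hM s (lt_of_lt_of_le hs ((min_le_left _ _).trans (min_le_left _ _))),
    hN s (lt_of_lt_of_le hs ((min_le_left _ _).trans (min_le_right _ _)))]

theorem agr_bdd (x y : Pt) : BddAbove (agr x y) := ⟨x.ht, fun _ ht => ht.1⟩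

theorem le_m {x y : Pt} {t : ℝ} (h : t ∈ agr x y) : t ≤ m x y := le_csSup (agr_bdd x y) h

theorem m_mem (x y : Pt) : m x y ∈ agr x y := by
  refine ⟨csSup_le (agr_nonempty x y) (fun t ht => ht.1),
    csSup_le (agr_nonempty x y) (fun t ht => ht.2.1), ?_⟩
  intro s hs
  obtain ⟨t, ht, hst⟩ := exists_lt_of_lt_csSup (agr_nonempty x y) hs
  exact ht.2.2 s hst

theorem m_le_left (x y : Pt) : m x y ≤ x.ht := (m_mem x y).1

theorem m_le_right (x y : Pt) : m x y ≤ y.ht := (m_mem x y).2.1

theorem m_eq (x y : Pt) {s : ℝ} (hs : s < m x y) : x.f s = y.f s := (m_mem x y).2.2 s hs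

theorem m_comm (x y : Pt) : m x y = m y x := by
  apply le_antisymm
  · exact le_m ⟨m_le_right x y, m_le_left x y, fun s hs => (m_eq x y hs).symm⟩
  · exact le_m ⟨m_le_right y x, m_le_left y x, fun s hs => (m_eq y x hs).symm⟩

theorem m_self (x : Pt) : m x x = x.ht :=
  le_antisymm (m_le_left x x) (le_m ⟨le_rfl, le_rfl, fun _ _ => rfl⟩)

theorem m_ultra (x y z : Pt) : min (m x y) (m y z) ≤ m x z := by
  apply le_m
  refine ⟨(min_le_left _ _).trans (m_le_left _ _), (min_le_right _ _).trans (m_le_right _ _), ?_⟩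
  intro s hs
  rw [m_eq x y (lt_of_lt_of_le hs (min_le_left _ _)),
    m_eq y z (lt_of_lt_of_le hs (min_le_right _ _))]

theorem eq_of_m {x y : Pt} (h1 : m x y = x.ht) (h2 : m x y = y.ht) : x = y := by
  have hht : x.ht = y.ht := h1.symm.trans h2
  refine Pt.ext hht ?_
  funext s
  rcases lt_or_ge s (m x y) with h | h
  · exact m_eq x y h
  · rw [x.top s (by rw [← h1]; exact h), y.top s (by rw [← h2]; exact h)]

noncomputable instance : MetricSpace Pt where
  dist x y := x.ht + y.ht - 2 * m x y
  dist_self x := by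
    show x.ht + x.ht - 2 * m x x = 0
    rw [m_self]; ring
  dist_comm x y := by
    show x.ht + y.ht - 2 * m x y = y.ht + x.ht - 2 * m y x
    rw [m_comm]; ring
  dist_triangle x y z := by
    show x.ht + z.ht - 2 * m x z ≤ (x.ht + y.ht - 2 * m x y) + (y.ht + z.ht - 2 * m y z)
    have h1 := m_ultra x y z
    have h2 := m_le_right x y
    have h3 := m_le_left y z
    rcases min_le_iff.1 h1 with h | h <;> linarith
  eq_of_dist_eq_zero := by
    intro x y h
    have h0 : x.ht + y.ht - 2 * m x y = 0 := h
    have h1 := m_le_left x y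
    have h2 := m_le_right x y
    exact eq_of_m (by linarith) (by linarith)

theorem dist_def (x y : Pt) : dist x y = x.ht + y.ht - 2 * m x y := rfl

/-- The Gromov product. -/
noncomputable def gp (x y z : Pt) : ℝ := (dist x y + dist x z - dist y z) / 2

theorem gp_eq (x y z : Pt) : gp x y z = x.ht - m x y - m x z + m y z := by
  unfold gp
  rw [dist_def, dist_def, dist_def]
  ring

theorem gp_nonneg (x y z : Pt) : 0 ≤ gp x y z := by
  unfold gp
  have := dist_triangle_left y z x
  linarith

theorem gp_comm (x y z : Pt) : gp x y z = gp x z y := by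
  rw [gp_eq, gp_eq, m_comm y z]; ring

theorem gp_le (x y z : Pt) : gp x y z ≤ dist x y := by
  unfold gp
  have := dist_triangle x y z
  linarith

/-- Zero-hyperbolicity. -/
theorem hyp (x a b c : Pt) : min (gp x b a) (gp x a c) ≤ gp x b c := by
  rw [gp_eq, gp_eq, gp_eq]
  by_contra hcon
  rw [not_le, lt_min_iff] at hcon
  obtain ⟨h1, h2⟩ := hcon
  have e1 := m_comm b a
  have e2 := m_comm c a
  have e3 := m_comm c b
  have e4 := m_comm a x
  have e5 := m_comm b x
  have e6 := m_comm c x
  have u1 := m_ultra b a c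
  have u2 := m_ultra x b a
  have u3 := m_ultra x c a
  have u4 := m_ultra b x c
  rw [min_le_iff] at u1 u2 u3 u4
  rcases u1 with u1 | u1 <;> rcases u2 with u2 | u2 <;> rcases u3 with u3 | u3 <;>
    rcases u4 with u4 | u4 <;> linarith

/-! ### Constructing points -/

/-- Cut `x` at height `s` and append the constant value `b` on an interval of length `r`. -/
noncomputable def ap (x : Pt) (s r : ℝ) (hr : 0 ≤ r) (b : Bool) : Pt where
  ht := s + r
  f u := if u < s then x.f u else if u < s + r then b else false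
  bd := by
    obtain ⟨M, hM⟩ := x.bd
    refine ⟨min M s, fun t ht => ?_⟩
    rw [if_pos (lt_of_lt_of_le ht (min_le_right _ _))]
    exact hM t (lt_of_lt_of_le ht (min_le_left _ _))
  top := by
    intro t ht
    rw [if_neg (by linarith), if_neg (by linarith)]
  rc := by
    intro t
    by_cases h1 : t < s
    · obtain ⟨ε, hε, h⟩ := x.rc t
      refine ⟨min ε (s - t), lt_min hε (by linarith), fun u hu1 hu2 => ?_⟩
      have h3 : u < t + ε := lt_of_lt_of_le hu2 (by linarith [min_le_left ε (s - t)])
      have h4 : u < s := lt_of_lt_of_le hu2 (by linarith [min_le_right ε (s - t)])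
      rw [if_pos h4, if_pos h1]
      exact h u hu1 h3
    · by_cases h2 : t < s + r
      · refine ⟨s + r - t, by linarith, fun u hu1 hu2 => ?_⟩
        have h3 : ¬ u < s := by linarith
        have h4 : u < s + r := by linarith
        rw [if_neg h3, if_neg h1, if_pos h4, if_pos h2]
      · refine ⟨1, one_pos, fun u hu1 hu2 => ?_⟩
        have h3 : ¬ u < s := by linarith
        have h4 : ¬ u < s + r := by linarith
        rw [if_neg h3, if_neg h1, if_neg h4, if_neg h2]

/-- Cut `x` at height `s`. -/
noncomputable def res (x : Pt) (s : ℝ) : Pt := ap x s 0 le_rfl false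

theorem ap_ht (x : Pt) (s r : ℝ) (hr : 0 ≤ r) (b : Bool) : (ap x s r hr b).ht = s + r := rfl

theorem res_ht (x : Pt) (s : ℝ) : (res x s).ht = s := by
  show s + 0 = s
  rw [add_zero]

theorem ap_f (x : Pt) (s r : ℝ) (hr : 0 ≤ r) (b : Bool) {u : ℝ} (hu : u < s) :
    (ap x s r hr b).f u = x.f u := by
  show (if u < s then x.f u else if u < s + r then b else false) = x.f u
  rw [if_pos hu]

theorem ap_f' (x : Pt) (s r : ℝ) (hr : 0 ≤ r) (b : Bool) {u : ℝ} (hu : s ≤ u) (hu' : u < s + r) :
    (ap x s r hr b).f u = b := by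
  show (if u < s then x.f u else if u < s + r then b else false) = b
  rw [if_neg (not_lt.2 hu), if_pos hu']

theorem le_m_ap (x : Pt) (s r : ℝ) (hr : 0 ≤ r) (b : Bool) (hs : s ≤ x.ht) :
    s ≤ m (ap x s r hr b) x := by
  apply le_m
  refine ⟨?_, hs, fun u hu => ap_f x s r hr b hu⟩
  rw [ap_ht]
  linarith

theorem m_res_self (x : Pt) (s : ℝ) (hs : s ≤ x.ht) : m (res x s) x = s := by
  apply le_antisymm
  · have := m_le_left (res x s) x
    rwa [res_ht] at this
  · exact le_m_ap x s 0 le_rfl false hs

theorem m_res (x y : Pt) (s : ℝ) (hs : s ≤ x.ht) : m (res x s) y = min s (m x y) := by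
  have h1 := m_res_self x s hs
  have h2 := m_ultra (res x s) x y
  have h3 := m_ultra x (res x s) y
  have h4 := m_le_left (res x s) y
  rw [res_ht] at h4
  rw [h1] at h2
  rw [m_comm x (res x s), h1] at h3
  apply le_antisymm
  · apply le_min h4
    rw [min_eq_right h4] at h3
    exact h3
  · exact h2

theorem dist_res (x y : Pt) (s : ℝ) (hs : s ≤ x.ht) :
    dist (res x s) y = s + y.ht - 2 * min s (m x y) := by
  rw [dist_def, res_ht, m_res x y s hs]

theorem dist_res_self (x : Pt) (s : ℝ) (hs : s ≤ x.ht) : dist (res x s) x = x.ht - s := by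
  rw [dist_res x x s hs, m_self, min_eq_left hs]
  ring

theorem dist_res_res (x : Pt) (s t : ℝ) (hs : s ≤ x.ht) (ht : t ≤ x.ht) :
    dist (res x s) (res x t) = |s - t| := by
  rw [dist_res x (res x t) s hs, res_ht, m_comm, m_res_self x t ht]
  rcases le_total s t with h | h
  · rw [min_eq_left h, abs_of_nonpos (by linarith)]
    ring
  · rw [min_eq_right h, abs_of_nonneg (by linarith)]
    ring

/-! ### Completeness -/

theorem abs_ht_sub_le (x y : Pt) : |x.ht - y.ht| ≤ dist x y := by
  rw [dist_def, abs_le]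
  have h1 := m_le_left x y
  have h2 := m_le_right x y
  constructor <;> linarith

theorem m_ge (x y : Pt) : x.ht - dist x y ≤ m x y := by
  rw [dist_def]
  have h2 := m_le_right x y
  linarith

instance : CompleteSpace Pt := by
  apply UniformSpace.complete_of_cauchySeq_tendsto
  intro u hu
  rw [Metric.cauchySeq_iff] at hu
  have hht : CauchySeq (fun n => (u n).ht) := by
    rw [Metric.cauchySeq_iff]
    intro ε hε
    obtain ⟨N, hN⟩ := hu ε hε
    refine ⟨N, fun k hk l hl => ?_⟩
    rw [Real.dist_eq]
    exact (abs_ht_sub_le _ _).trans_lt (hN k hk l hl)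
  obtain ⟨ρ, hρ⟩ := cauchySeq_tendsto_of_complete hht
  -- eventually agreement below `ρ`
  have hag : ∀ t, t < ρ → ∃ N, ∀ k, N ≤ k → ∀ l, N ≤ l → t < m (u k) (u l) := by
    intro t ht
    obtain ⟨N1, hN1⟩ := hu ((ρ - t) / 2) (by linarith)
    obtain ⟨N2, hN2⟩ := eventually_atTop.1 (hρ.eventually_const_lt
      (show ρ - (ρ - t) / 2 < ρ by linarith))
    refine ⟨max N1 N2, fun k hk l hl => ?_⟩
    have h1 := hN1 k ((le_max_left _ _).trans hk) l ((le_max_left _ _).trans hl)
    have h2 := hN2 k ((le_max_right _ _).trans hk)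
    have h3 := m_ge (u k) (u l)
    linarith
  choose! N hN using hag
  let F : ℝ → Bool := fun t => if t < ρ then (u (N t)).f t else false
  have hF : ∀ t, t < ρ → ∀ s, s < t → ∀ k, N t ≤ k → F s = (u k).f s := by
    intro t ht s hs k hk
    show (if s < ρ then (u (N s)).f s else false) = (u k).f s
    rw [if_pos (hs.trans ht)]
    have h1 := hN t ht k hk (max (N s) (N t)) (le_max_right _ _)
    have h2 := hN s (hs.trans ht) (N s) le_rfl (max (N s) (N t)) (le_max_left _ _)
    rw [m_eq _ _ h2, m_eq _ _ (hs.trans h1)]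
  let x : Pt :=
    { ht := ρ
      f := F
      bd := by
        obtain ⟨M, hM⟩ := (u (N (ρ - 1))).bd
        refine ⟨min M (ρ - 1), fun s hs => ?_⟩
        rw [hF (ρ - 1) (by linarith) s (lt_of_lt_of_le hs (min_le_right _ _)) _ le_rfl]
        exact hM s (lt_of_lt_of_le hs (min_le_left _ _))
      top := by
        intro t ht
        show (if t < ρ then (u (N t)).f t else false) = false
        rw [if_neg (not_lt.2 ht)]
      rc := by
        intro t
        by_cases h : t < ρ
        · obtain ⟨ε, hε, hc⟩ := (u (N ((t + ρ) / 2))).rc t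
          refine ⟨min ε ((ρ - t) / 2), lt_min hε (by linarith), fun s hs1 hs2 => ?_⟩
          have h3 : s < t + ε := lt_of_lt_of_le hs2 (by linarith [min_le_left ε ((ρ - t) / 2)])
          have h4 : s < (t + ρ) / 2 :=
            lt_of_lt_of_le hs2 (by linarith [min_le_right ε ((ρ - t) / 2)])
          rw [hF ((t + ρ) / 2) (by linarith) s h4 _ le_rfl,
            hF ((t + ρ) / 2) (by linarith) t (by linarith) _ le_rfl]
          exact hc s hs1 h3
        · refine ⟨1, one_pos, fun s hs1 _ => ?_⟩
          show (if s < ρ then (u (N s)).f s else false) = (if t < ρ then (u (N t)).f t else false)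
          rw [if_neg h, if_neg (by linarith)] }
  refine ⟨x, ?_⟩
  rw [Metric.tendsto_atTop]
  intro ε hε
  obtain ⟨N2, hN2⟩ := eventually_atTop.1 ((hρ.eventually_const_lt
      (show ρ - ε / 4 < ρ by linarith)).and (hρ.eventually_lt_const
      (show ρ < ρ + ε / 4 by linarith)))
  refine ⟨max (N (ρ - ε / 4)) N2, fun k hk => ?_⟩
  obtain ⟨h1, h2⟩ := hN2 k ((le_max_right _ _).trans hk)
  have h3 : ρ - ε / 4 ≤ m (u k) x := by
    apply le_m
    refine ⟨h1.le, ?_, fun s hs => ?_⟩
    · show ρ - ε / 4 ≤ ρ
      linarith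
    · exact (hF (ρ - ε / 4) (by linarith) s hs k ((le_max_left _ _).trans hk)).symm
  rw [dist_def]
  have h4 : x.ht = ρ := rfl
  rw [h4]
  linarith

/-! ### Hyperconvexity -/

theorem hyperconvex {ι : Type*} [Nonempty ι] (c : ι → Pt) (r : ι → ℝ)
    (h : ∀ i j, dist (c i) (c j) ≤ r i + r j) : ∃ y, ∀ i, dist y (c i) ≤ r i := by
  have hr : ∀ i, 0 ≤ r i := by
    intro i
    have := h i i
    rw [dist_self] at this
    linarith
  let η : ι → ℝ := fun i => (c i).ht - r i
  have hη : ∀ i, η i ≤ (c i).ht := fun i => by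
    show (c i).ht - r i ≤ (c i).ht
    linarith [hr i]
  let b : ι → Pt := fun i => res (c i) (η i)
  have hb : ∀ i j, η j ≤ η i → dist (b i) (c j) ≤ r j := by
    intro i j hij
    rw [dist_res _ _ _ (hη i)]
    rcases le_total (η i) (m (c i) (c j)) with h1 | h1
    · rw [min_eq_left h1]
      have : η j = (c j).ht - r j := rfl
      linarith
    · rw [min_eq_right h1]
      have h2 := h i j
      rw [dist_def] at h2
      have : η i = (c i).ht - r i := rfl
      linarith
  have hbb : ∀ i j, dist (b i) (b j) = |η i - η j| := by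
    intro i j
    rw [dist_res _ _ _ (hη i), res_ht, m_comm, m_res _ _ _ (hη j), m_comm (c j)]
    have h2 := h i j
    rw [dist_def] at h2
    have e1 : η i = (c i).ht - r i := rfl
    have e2 : η j = (c j).ht - r j := rfl
    rcases le_total (η i) (η j) with h3 | h3
    · rw [abs_of_nonpos (by linarith), ← min_assoc, min_eq_left h3,
        min_eq_left (by linarith : η i ≤ m (c i) (c j))]
      ring
    · rw [abs_of_nonneg (by linarith), ← min_assoc, min_eq_right h3,
        min_eq_left (by linarith : η j ≤ m (c i) (c j))]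
      ring
  by_cases hmax : ∃ i, ∀ j, η j ≤ η i
  · obtain ⟨i, hi⟩ := hmax
    exact ⟨b i, fun j => hb i j (hi j)⟩
  · push Not at hmax
    have hbdd : BddAbove (Set.range η) := by
      obtain ⟨i0⟩ := ‹Nonempty ι›
      refine ⟨(c i0).ht + r i0, ?_⟩
      rintro _ ⟨j, rfl⟩
      have h1 := h i0 j
      have h2 := abs_ht_sub_le (c i0) (c j)
      have h3 := (abs_le.1 (h2.trans h1)).1
      show (c j).ht - r j ≤ (c i0).ht + r i0
      linarith
    let η0 := sSup (Set.range η)
    have hη0 : ∀ j, η j < η0 := by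
      intro j
      obtain ⟨i, hi⟩ := hmax j
      exact lt_of_lt_of_le hi (le_csSup hbdd ⟨i, rfl⟩)
    have hseq : ∀ n : ℕ, ∃ i, η0 - 1 / ((n : ℝ) + 1) < η i := by
      intro n
      have hpos : (0 : ℝ) < 1 / ((n : ℝ) + 1) := by positivity
      obtain ⟨_, ⟨i, rfl⟩, hi⟩ := exists_lt_of_lt_csSup (Set.range_nonempty η)
        (show η0 - 1 / ((n : ℝ) + 1) < sSup (Set.range η) by
          show η0 - 1 / ((n : ℝ) + 1) < η0
          linarith)
      exact ⟨i, hi⟩
    choose i hi using hseq
    have hlim : Tendsto (fun n => η (i n)) atTop (𝓝 η0) := by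
      have h1 : Tendsto (fun n : ℕ => η0 - 1 / ((n : ℝ) + 1)) atTop (𝓝 η0) := by
        have := (tendsto_const_nhds (x := η0)).sub
          (tendsto_one_div_add_atTop_nhds_zero_nat (𝕜 := ℝ))
        simpa using this
      exact tendsto_of_tendsto_of_tendsto_of_le_of_le h1 tendsto_const_nhds
        (fun n => (hi n).le) (fun n => (hη0 _).le)
    have hcau : CauchySeq (fun n => b (i n)) := by
      have h1 := hlim.cauchySeq
      rw [Metric.cauchySeq_iff] at h1 ⊢
      intro ε hε
      obtain ⟨N, hN⟩ := h1 ε hε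
      refine ⟨N, fun k hk l hl => ?_⟩
      rw [hbb, ← Real.dist_eq]
      exact hN k hk l hl
    obtain ⟨y, hy⟩ := cauchySeq_tendsto_of_complete hcau
    refine ⟨y, fun j => ?_⟩
    have h1 : Tendsto (fun n => dist (b (i n)) (c j)) atTop (𝓝 (dist y (c j))) :=
      hy.dist tendsto_const_nhds
    apply le_of_tendsto h1
    filter_upwards [hlim.eventually_const_lt (hη0 j)] with n hn
    exact hb _ _ hn.le

/-! ### Geodesics and valence -/

theorem exists_between (x a : Pt) (r : ℝ) (hr : 0 ≤ r) (hr' : r ≤ dist x a) :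
    ∃ p, dist x p = r ∧ dist p a = dist x a - r := by
  rw [dist_def] at hr' ⊢
  have h1 := m_le_left x a
  have h2 := m_le_right x a
  rcases le_total r (x.ht - m x a) with h | h
  · refine ⟨res x (x.ht - r), ?_, ?_⟩
    · rw [dist_comm, dist_res_self _ _ (by linarith)]
      ring
    · rw [dist_res _ _ _ (by linarith), min_eq_right (by linarith)]
      ring
  · refine ⟨res a (m x a + (r - (x.ht - m x a))), ?_, ?_⟩
    · rw [dist_comm, dist_res _ _ _ (by linarith), m_comm a x, min_eq_right (by linarith)]
      ring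
    · rw [dist_res_self _ _ (by linarith)]
      ring

/-- At every point there are three directions. -/
theorem three (q : Pt) (r : ℝ) (hr : 0 < r) : ∃ y : Fin 3 → Pt, (∀ k, dist q (y k) = r) ∧
    ∀ k l, k ≠ l → gp q (y k) (y l) = 0 := by
  let y1 := res q (q.ht - r)
  let y2 := ap q q.ht r hr.le false
  let y3 := ap q q.ht r hr.le true
  have m1 : m q y1 = q.ht - r := by
    rw [m_comm]
    exact m_res_self q _ (by linarith)
  have m2 : m q y2 = q.ht := by
    apply le_antisymm (m_le_left _ _)
    rw [m_comm]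
    exact le_m_ap _ _ _ _ _ le_rfl
  have m3 : m q y3 = q.ht := by
    apply le_antisymm (m_le_left _ _)
    rw [m_comm]
    exact le_m_ap _ _ _ _ _ le_rfl
  have m12 : m y1 y2 = q.ht - r := by
    show m (res q (q.ht - r)) y2 = _
    rw [m_res _ _ _ (by linarith), m2, min_eq_left (by linarith)]
  have m13 : m y1 y3 = q.ht - r := by
    show m (res q (q.ht - r)) y3 = _
    rw [m_res _ _ _ (by linarith), m3, min_eq_left (by linarith)]
  have m23 : m y2 y3 = q.ht := by
    apply le_antisymm
    · by_contra hlt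
      rw [not_le] at hlt
      have h1 := m_eq y2 y3 hlt
      have h2 : y2.f q.ht = false := ap_f' _ _ _ _ _ le_rfl (by linarith)
      have h3 : y3.f q.ht = true := ap_f' _ _ _ _ _ le_rfl (by linarith)
      rw [h2, h3] at h1
      exact absurd h1 (by decide)
    · have := m_ultra y2 q y3
      rw [m_comm y2 q, m2, m3, min_self] at this
      exact this
  have h1 : y1.ht = q.ht - r := res_ht _ _
  have h2 : y2.ht = q.ht + r := rfl
  have h3 : y3.ht = q.ht + r := rfl
  have g12 : gp q y1 y2 = 0 := by rw [gp_eq, m1, m2, m12]; ring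
  have g13 : gp q y1 y3 = 0 := by rw [gp_eq, m1, m3, m13]; ring
  have g23 : gp q y2 y3 = 0 := by rw [gp_eq, m2, m3, m23]; ring
  refine ⟨![y1, y2, y3], ?_, ?_⟩
  · intro k
    fin_cases k
    · show dist q y1 = r
      rw [dist_def, m1, h1]; ring
    · show dist q y2 = r
      rw [dist_def, m2, h2]; ring
    · show dist q y3 = r
      rw [dist_def, m3, h3]; ring
  · intro k l hkl
    fin_cases k <;> fin_cases l
    · exact absurd rfl hkl
    · exact g12
    · exact g13
    · exact (gp_comm _ _ _).trans g12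
    · exact absurd rfl hkl
    · exact g23
    · exact (gp_comm _ _ _).trans g13
    · exact (gp_comm _ _ _).trans g23
    · exact absurd rfl hkl

/-- There are no four directions. -/
theorem no_four (p : Pt) (a : Fin 4 → Pt) (ha : ∀ k, a k ≠ p) :
    ∃ k l, k ≠ l ∧ 0 < gp p (a k) (a l) := by
  classical
  -- the class of a point
  let cl : Fin 4 → Fin 3 := fun k =>
    if m p (a k) < p.ht then 0 else if (a k).f p.ht = true then 1 else 2
  obtain ⟨k, l, hkl, heq⟩ := Fintype.exists_ne_map_eq_of_card_lt cl (by simp)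
  refine ⟨k, l, hkl, ?_⟩
  rw [gp_eq]
  have hl1 := m_le_left p (a k)
  have hl2 := m_le_left p (a l)
  by_cases hk : m p (a k) < p.ht
  · have h1 : cl k = 0 := if_pos hk
    have hl : m p (a l) < p.ht := by
      by_contra hcon
      have h2 : cl l = if (a l).f p.ht = true then 1 else 2 := if_neg hcon
      rw [← heq, h1] at h2
      split_ifs at h2 <;> exact absurd h2 (by decide)
    have hu := m_ultra (a k) p (a l)
    rw [m_comm (a k) p, min_le_iff] at hu
    rcases hu with hu | hu <;> linarith
  · have hl : ¬ m p (a l) < p.ht := by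
      intro hcon
      have h2 : cl l = 0 := if_pos hcon
      have h1 : cl k = if (a k).f p.ht = true then 1 else 2 := if_neg hk
      rw [heq, h2] at h1
      split_ifs at h1 <;> exact absurd h1 (by decide)
    have ek : m p (a k) = p.ht := le_antisymm hl1 (not_lt.1 hk)
    have el : m p (a l) = p.ht := le_antisymm hl2 (not_lt.1 hl)
    have hf : (a k).f p.ht = (a l).f p.ht := by
      have h1 : cl k = if (a k).f p.ht = true then 1 else 2 := if_neg hk
      have h2 : cl l = if (a l).f p.ht = true then 1 else 2 := if_neg hl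
      rw [heq, h2] at h1
      by_cases c1 : (a k).f p.ht = true <;> by_cases c2 : (a l).f p.ht = true
      · rw [c1, c2]
      · rw [if_pos c1, if_neg c2] at h1
        exact absurd h1 (by decide)
      · rw [if_neg c1, if_pos c2] at h1
        exact absurd h1 (by decide)
      · rw [Bool.not_eq_true] at c1 c2
        rw [c1, c2]
    have hgt : ∀ i, m p (a i) = p.ht → p.ht < (a i).ht := by
      intro i hi
      have h1 := m_le_right p (a i)
      rw [hi] at h1
      rcases h1.lt_or_eq with h2 | h2
      · exact h2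
      · exact absurd (eq_of_m hi (hi.trans h2)).symm (ha i)
    obtain ⟨ε1, hε1, hc1⟩ := (a k).rc p.ht
    obtain ⟨ε2, hε2, hc2⟩ := (a l).rc p.ht
    have h3 : min (min (p.ht + ε1) (p.ht + ε2)) (min (a k).ht (a l).ht) ≤ m (a k) (a l) := by
      apply le_m
      refine ⟨(min_le_right _ _).trans (min_le_left _ _),
        (min_le_right _ _).trans (min_le_right _ _), fun s hs => ?_⟩
      rcases lt_or_ge s p.ht with h | h
      · rw [← m_eq p (a k) (by rw [ek]; exact h), ← m_eq p (a l) (by rw [el]; exact h)]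
      · rw [hc1 s h (lt_of_lt_of_le hs ((min_le_left _ _).trans (min_le_left _ _))),
          hc2 s h (lt_of_lt_of_le hs ((min_le_left _ _).trans (min_le_right _ _))), hf]
    have h4 : p.ht < m (a k) (a l) := by
      refine lt_of_lt_of_le ?_ h3
      exact lt_min (lt_min (by linarith) (by linarith)) (lt_min (hgt k ek) (hgt l el))
    rw [ek, el]
    linarith

end Pool.Agent.Q148.Tree
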